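import Pool.Agent.helper1.FI4.SpecHT

/-!
# Row fi4:UDD: integrality of the generalised decomposition numbers
-/

set_option autoImplicit false

namespace Pool.Agent.FI4

open Pool.Agent.helper58.DC Pool.Agent.DI Pool.Agent.GR Pool.Agent.OB Pool.Agent.DR Pool.Agent.FI Pool.Agent.FI3

/-- Row UDD. -/
theorem UDD (hUNV : UNV_stmt) (hHTD : HTD_stmt) (hTRW : TRW_stmt) (hQNW : QNW_stmt) (hQID : QID_stmt) (hRR1 : RR1_stmt) :
    UDD_stmt := by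
  intro p M hS G _ _ D x θ χ hRt P hP u hu hgood ψ hψ
  obtain ⟨i, hi⟩ := hQID p M hS G D x θ χ hRt P hP
  obtain ⟨w, hwC, hwr, hHT⟩ := hUNV p M hS G D x θ χ hRt
  obtain ⟨j, hj1, hj2, hj3, hj4, hj5⟩ := hi.loc (Cz (cz P) u) ⟨u, hu, rfl⟩
  have hCL : cz D ≤ cz P := Q1_C_le hP
  have hCK : cz D ≤ Cz (cz P) u := Q1_C_Cz hP hu
  have hDC : D ≤ cz D := le_cz_of_com hRt.com
  have hDL : D ≤ cz P := Q1_D_le hRt hP
  have hinvC : Inv (cz D) i := fun s hs y =>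
    hi.inv s (Subgroup.mem_inf.2 ⟨cz_le_TT hs, hCL hs⟩) y
  obtain ⟨hA, -⟩ := hHT (cz P) hCL i hi.idm hinvC hi.cen ψ hψ u hu
  have hpel : PEl p u := by
    obtain ⟨k, hk⟩ := hRt.dfa.pgrp ⟨u, hu⟩
    refine ⟨k, ?_⟩
    have := congrArg (Subtype.val) hk
    simpa using this
  have hcomm : Commute u w := by
    have h := hwC
    rw [Subgroup.mem_centralizer_iff] at h
    exact h u hu
  have hjL : Idm M (cz P) j :=
    ⟨fun y hy => hj1.sup y (fun h => hy (mem_Cz.1 h).1), hj1.int, hj1.idem⟩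
  have huwC : u * w ∈ cz D := (cz D).mul_mem (hDC hu) hwC
  have h2 : ev ψ i (u * w) = ev ψ j (u * w) :=
    hRR1 p M hS G (cz P) u (hDL hu) w (hCL hwC) hpel hwr hcomm i j hi.idm hjL
      (fun x => hinvC (u * w) huwC x) (fun x => hj2 (u * w) huwC x) hj5 ψ hψ.1
  have hne : (Bl M (Cz (cz P) u) θ).Nonempty := by
    rw [Set.nonempty_iff_ne_empty]
    intro h
    have h3 := hgood.card
    rw [h, Set.ncard_empty] at h3
    exact Nat.card_pos.ne h3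
  obtain ⟨ψ0, hψ0⟩ := hne
  have h3 : ∀ ψ₁ ∈ Bl M (Cz (cz P) u) θ, ev ψ₁ j w = ev ψ0 j w := by
    intro ψ₁ h
    exact hTRW p M hS G (Cz (cz P) u) j hj1 w (hCK hwC) hwr (fun x => hj2 w hwC x) ψ₁ ψ0
      (fun s hs x => IrrOn_conj h.1 hs x) (fun s hs x => IrrOn_conj hψ0.1 hs x)
      (fun v hv hvr => hgood.reg ψ₁ h ψ0 hψ0 v hv hvr)
  have h4 := hQNW G M (cz P) θ u (hDL hu) w (hCK hwC) j hj1.sup hj4 (ev ψ0 j w) h3 ψ hψ.1
  rw [h2, h4] at hA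
  -- the group `K`
  have hjcen : ∀ y ∈ cz D, InM M (j y - eBl M (cz D) θ y) := by
    intro y hy
    have e1 := hi.cen y hy
    have e2 := hj5 y (hCK hy)
    have e3 := e1.add hS e2.neg
    have e4 : i y - eBl M (cz D) θ y + -(i y - j y) = j y - eBl M (cz D) θ y := by ring
    rwa [e4] at e3
  obtain ⟨hB1, hB2⟩ := hHT (Cz (cz P) u) hCK j hj1 hj2 hjcen ψ0 hψ0 1 D.one_mem
  rw [one_mul] at hB1 hB2
  obtain ⟨n, m, hn, hnm⟩ := hHTD p M hS G D (Cz (cz P) u) θ hgood ψ0 hψ0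
  have hn0 : (n : ℂ) ≠ 0 := by
    rw [← hn]
    exact IrrOn_ne hψ0.1
  have hD0 : ((Nat.card D : ℕ) : ℂ) ≠ 0 := by
    have : Nat.card D ≠ 0 := Nat.card_pos.ne'
    exact_mod_cast this
  have hBe : (Nat.card (Cz (cz P) u) : ℂ) / Nat.card D * (ev ψ0 j w / ψ0 1) = m * ev ψ0 j w := by
    rw [hn, ← hnm]
    push_cast
    field_simp
  rw [hBe] at hB1 hB2
  have hB0 : (m : ℂ) * ev ψ0 j w ≠ 0 := by
    intro h
    apply hB2
    rw [h]
    exact InM.zero hS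
  have hm0 : (m : ℂ) ≠ 0 := left_ne_zero_of_mul hB0
  have hc0 : ev ψ0 j w ≠ 0 := right_ne_zero_of_mul hB0
  have hψ1 : ψ 1 ≠ 0 := IrrOn_ne hψ.1
  have hX : (Nat.card (cz P) : ℂ) / Nat.card D * (dd M (Cz (cz P) u) θ ψ u / ψ 1) =
      (m : ℂ) * ((Nat.card (cz P) : ℂ) / Nat.card D * (ev ψ0 j w * dd M (Cz (cz P) u) θ ψ u / ψ 1)) *
        ((m : ℂ) * ev ψ0 j w)⁻¹ := by
    field_simp
  rw [hX]
  exact IntAt.mul hS (IntAt.mul hS (IntAt.natCast hS m) hA) (IntAt.inv hS hB1 hB2)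

end Pool.Agent.FI4
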