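import Pool.Agent.helper59.FI4.SpecI

set_option autoImplicit false

namespace Pool.Agent.FI4I

open Pool.Agent.helper58.DC Pool.Agent.DI Pool.Agent.GR Pool.Agent.OB Pool.Agent.DR Pool.Agent.FI Pool.Agent.FI3 Pool.Agent.FI4

theorem TR4_image {p : ℕ} {G : Type} [Group G] (N H : Subgroup G) (hHN : H ≤ N)
    (hreg : ∀ y : N, PReg p y ↔ PReg p (y : G)) :
    (N.subtype : N → G) '' {v : N | v ∈ H.subgroupOf N ∧ PReg p v} = {v : G | v ∈ H ∧ PReg p v} := by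
  ext v
  constructor
  · rintro ⟨w, ⟨hw, hw'⟩, rfl⟩
    exact ⟨Subgroup.mem_subgroupOf.1 hw, (hreg w).1 hw'⟩
  · rintro ⟨hv, hv'⟩
    exact ⟨⟨v, hHN hv⟩, ⟨Subgroup.mem_subgroupOf.2 hv, (hreg ⟨v, hHN hv⟩).2 hv'⟩, rfl⟩

theorem TR4 (hTR3 : TR3_stmt) : TR4_stmt := by
  intro p G _ _ N H hHN ψ ψ'
  obtain ⟨_, hcard, _, hreg, _⟩ := hTR3 p G N
  have hc : Nat.card (H.subgroupOf N) = Nat.card H := (hcard H hHN).1
  refine ⟨?_, ?_⟩
  · unfold EE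
    rw [hc]
    have himg := TR4_image (p := p) N H hHN (fun y => (hreg y).1)
    have hsum : (∑ᶠ v ∈ {v : G | v ∈ H ∧ PReg p v}, ψ v * ψ' v⁻¹) =
        ∑ᶠ v ∈ {v : N | v ∈ H.subgroupOf N ∧ PReg p v}, ψ (N.subtype v) * ψ' (N.subtype v)⁻¹ := by
      rw [← himg]
      exact finsum_mem_image (Function.Injective.injOn N.subtype_injective)
    rw [hsum]
    rfl
  · intro d
    unfold Defect
    rw [hc]
    rfl

end Pool.Agent.FI4I
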