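import Pool.Agent.helper12.FI4.SpecX
import Pool.Agent.helper59.FI.Base

set_option autoImplicit false

namespace Pool.Agent.FI4

open Pool.Agent.helper58.DC Pool.Agent.DI Pool.Agent.GR Pool.Agent.OB Pool.Agent.DR Pool.Agent.FI Pool.Agent.FI3

theorem X2_index {G E A : Type} [Group G] [Group E] [Group A] (X : Extension G E A) :
    X.inc.range.index = Nat.card A := by
  have hker : X.proj.ker = X.inc.range := by
    ext e
    rw [MonoidHom.mem_ker, X.exact e]
    rfl
  rw [← hker, Subgroup.index_ker]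
  exact Nat.card_congr (Equiv.ofBijective (fun a : X.proj.range => (a : A))
    ⟨Subtype.val_injective, fun a => by
      obtain ⟨e, he⟩ := X.proj_surjective a
      exact ⟨⟨a, e, he⟩, rfl⟩⟩)

theorem X2_normal {G E A : Type} [Group G] [Group E] [Group A] (X : Extension G E A) :
    X.inc.range.Normal := by
  constructor
  rintro _ ⟨g, rfl⟩ e
  exact ⟨X.act e g, X.act_spec e g⟩

theorem X2_cent {p : ℕ} [Fact p.Prime] {G E A : Type} [Group G] [Group E] [Group A] [Finite G] [Finite E]
    (X : Extension G E A) (hpA : ¬ p ∣ Nat.card A) (y : G) :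
    pp p (Subgroup.centralizer ({X.inc y} : Set E)) = pp p (Subgroup.centralizer ({y} : Set G)) := by
  set C' : Subgroup E := Subgroup.centralizer ({X.inc y} : Set E) with hC'
  have hinf : X.inc.range ⊓ C' = (Subgroup.centralizer ({y} : Set G)).map X.inc := by
    ext e
    rw [Subgroup.mem_inf, Subgroup.mem_map, hC', Subgroup.mem_centralizer_singleton_iff]
    constructor
    · rintro ⟨⟨g, rfl⟩, h⟩
      refine ⟨g, ?_, rfl⟩
      rw [Subgroup.mem_centralizer_singleton_iff]
      apply X.inc_injective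
      rw [map_mul X.inc g y, map_mul X.inc y g]
      exact h
    · rintro ⟨g, hg, rfl⟩
      rw [Subgroup.mem_centralizer_singleton_iff] at hg
      exact ⟨⟨g, rfl⟩, by rw [← map_mul, hg, map_mul]⟩
  have hnorm : X.inc.range.Normal := X2_normal X
  have hrel : X.inc.range.relIndex C' ∣ Nat.card A := by
    rw [← X2_index X]
    exact Subgroup.relIndex_dvd_index_of_normal _ _
  have hcardC : Nat.card C' = Nat.card (Subgroup.centralizer ({y} : Set G)) * X.inc.range.relIndex C' := by
    have h1 := Subgroup.card_mul_index (X.inc.range.subgroupOf C')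
    have h2 : Nat.card (X.inc.range.subgroupOf C') = Nat.card (X.inc.range ⊓ C' : Subgroup E) :=
      Nat.card_congr (Subgroup.subgroupOfEquivOfLe (H := X.inc.range ⊓ C') (K := C') inf_le_right |>.toEquiv |>
        fun e => (Equiv.setCongr (by rw [Subgroup.inf_subgroupOf_right])).trans e)
    have h3 : Nat.card (X.inc.range ⊓ C' : Subgroup E) = Nat.card (Subgroup.centralizer ({y} : Set G)) := by
      rw [hinf]
      exact (Nat.card_congr (Subgroup.equivMapOfInjective _ X.inc X.inc_injective).toEquiv).symm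
    rw [← h1, h2, h3]
    rfl
  unfold pp
  have h2 : ¬ p ∣ X.inc.range.relIndex C' := fun h => hpA (h.trans hrel)
  have h3 : X.inc.range.relIndex C' ≠ 0 := by
    intro h
    rw [h] at h2
    exact h2 (dvd_zero p)
  rw [hcardC, padicValNat.mul Nat.card_pos.ne' h3, padicValNat.eq_zero_of_not_dvd h2, add_zero]

theorem X2_omega (hIOM : Pool.Agent.TZ.IOM_stmt) {p : ℕ} {M : Ideal (integralClosure ℤ ℂ)} (hS : Setup p M)
    {G E A : Type} [Group G] [Group E] [Group A] [Finite G] [Finite E] (X : Extension G E A)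
    (hpA : ¬ p ∣ Nat.card A) {χ : G → ℂ} (hχ : χ ∈ Irr G) (hst : Stable X M χ) {b : E → ℂ}
    (hcov : Cov M X.inc.range (omega (ext0 X.inc χ)) b) (y : G) :
    InM M (omega b (X.inc y)) ↔ InM M (omega χ y) := by
  obtain ⟨n, hn, h1⟩ := hIOM p M hS G E A X χ hχ hst y
  have h2 : InM M (omega b (X.inc y) - omega (ext0 X.inc χ) (X.inc y)) :=
    InM.of_mcong hS (hcov _ ⟨y, rfl⟩)
  constructor
  · intro h
    have h3 : InM M ((n : ℂ) * omega χ y) := by
      have h4 := (h.sub hS h2).sub hS h1
      have h5 : omega b (X.inc y) - (omega b (X.inc y) - omega (ext0 X.inc χ) (X.inc y)) -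
          (omega (ext0 X.inc χ) (X.inc y) - n * omega χ y) = (n : ℂ) * omega χ y := by
        ring
      rw [h5] at h4
      exact h4
    have hpn : ¬ p ∣ n := fun h => hpA (h.trans hn)
    have hnM : ¬ InM M (n : ℂ) := fun h => hpn ((InM.natCast hS n).1 h)
    have hn0 : (n : ℂ) ≠ 0 := by
      intro h0
      exact hnM (h0 ▸ InM.zero hS)
    have h6 := InM.mul_left hS (IntAt.inv hS (IntAt.natCast hS n) hnM) h3
    rw [← mul_assoc, inv_mul_cancel₀ hn0, one_mul] at h6
    exact h6
  · intro h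
    have h3 := InM.mul_left hS (IntAt.natCast hS n) h
    have h4 := (h2.add hS h1).add hS h3
    have h5 : omega b (X.inc y) - omega (ext0 X.inc χ) (X.inc y) +
        (omega (ext0 X.inc χ) (X.inc y) - n * omega χ y) + (n : ℂ) * omega χ y = omega b (X.inc y) := by
      ring
    rw [h5] at h4
    exact h4

theorem X2_Cz {G : Type} [Group G] (y : G) : Cz (⊤ : Subgroup G) y = Subgroup.centralizer {y} := by
  unfold Cz
  rw [top_inf_eq]

theorem X2 (hX2a : X2a_stmt) (hIOM : Pool.Agent.TZ.IOM_stmt) (hDCM : DCM_stmt) (hSUP : SUP_stmt)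
    (hSYL : SYL_stmt) (hBLE : BLE_stmt) (hB0 : B0_stmt) : X2_stmt := by
  intro p M hS G E A _ _ _ _ _ X hcyc hpA χ hχ hst D x hdef b hb hcov
  have hp : Fact p.Prime := ⟨hS.pr⟩
  have hcardD : Nat.card (D.map X.inc) = Nat.card D :=
    (Nat.card_congr (Subgroup.equivMapOfInjective _ X.inc X.inc_injective).toEquiv).symm
  refine ⟨?_, ?_, ?_, ?_, ?_, ?_⟩
  · rw [orderOf_injective X.inc X.inc_injective x]
    exact hdef.reg
  · intro h
    exact hdef.ne ((X2_omega hIOM hS X hpA hχ hst hcov x).1 h)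
  · rintro _ ⟨d, hd, rfl⟩
    have h1 := Subgroup.mem_centralizer_singleton_iff.1 (hdef.le hd)
    rw [Subgroup.mem_centralizer_singleton_iff, ← map_mul, h1, map_mul]
  · exact hdef.pgrp.map _
  · rw [hcardD, X2_cent X hpA x]
    exact hdef.card
  · intro y hy
    have hbt : b ∈ IrrOn (⊤ : Subgroup E) := IrrOn_top.2 hb
    have hnorm : X.inc.range.Normal := X2_normal X
    obtain ⟨_, hCF, hInt, _, _, _, _, hBq⟩ := hBLE p M hS E ⊤ ⊤ le_rfl b
    rw [hBq] at hCF hInt
    have hK := hX2a p M hS E X.inc.range (hB0.2.2.2 G E A X hcyc) (by rw [X2_index]; exact hpA) b hb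
    set e : E → ℂ := eS ⊤ (Bl M ⊤ b) with he
    have hzin : ∀ u, u ∈ X.inc.range → rsH X.inc.range e u = e u := by
      intro u hu
      unfold rsH
      rw [if_pos hu]
    have hzout : ∀ u, u ∉ X.inc.range → rsH X.inc.range e u = 0 := by
      intro u hu
      unfold rsH
      rw [if_neg hu]
    have hzinv : ∀ l ∈ (⊤ : Subgroup E), ∀ u, rsH X.inc.range e (l * u * l⁻¹) = rsH X.inc.range e u := by
      intro l hl u
      by_cases hu : u ∈ X.inc.range
      · rw [hzin u hu, hzin _ (hnorm.conj_mem u hu l)]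
        exact hCF.1 l hl u
      · have hu' : l * u * l⁻¹ ∉ X.inc.range := by
          intro h
          apply hu
          have h1 := hnorm.conj_mem _ h l⁻¹
          have h2 : l⁻¹ * (l * u * l⁻¹) * l⁻¹⁻¹ = u := by group
          rw [h2] at h1
          exact h1
        rw [hzout u hu, hzout _ hu']
    have hzint : ∀ u, IntAt M (rsH X.inc.range e u) := by
      intro u
      by_cases hu : u ∈ X.inc.range
      · rw [hzin u hu]
        exact hInt u
      · rw [hzout u hu]
        exact IntAt.zero hS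
    have hccint : ∀ u, IntAt M (cc b (cls ⊤ u)) := fun u =>
      IntAt.of_isIntegral hS (cc_cls_int le_rfl hbt u)
    have hex : ∃ a, ¬ InM M (rsH X.inc.range e a) ∧ ¬ InM M (cc b (cls ⊤ a)) := by
      by_contra hcon
      apply hK
      refine (((hDCM E ⊤ M p hS).1 b (rsH X.inc.range e) hzinv hzint hccint).2 ?_)
      intro u
      by_contra h
      rw [not_or] at h
      exact hcon ⟨u, h⟩
    obtain ⟨a, ha1, ha2⟩ := hex
    have haK : a ∈ X.inc.range := by
      by_contra h
      rw [hzout a h] at ha1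
      exact ha1 (InM.zero hS)
    rw [hzin a haK] at ha1
    obtain ⟨a₀, rfl⟩ := haK
    have ha3 : ¬ InM M (omega χ a₀) := by
      intro h
      apply ha2
      rw [cc_cls_top]
      exact (X2_omega hIOM hS X hpA hχ hst hcov a₀).2 h
    have hDa : Nat.card D ≤ pp p (Subgroup.centralizer ({X.inc a₀} : Set E)) := by
      rw [X2_cent X hpA a₀]
      exact hdef.min a₀ ha3
    obtain ⟨hsA, hsB, _⟩ := hSYL p E
    obtain ⟨R, _, hRle, hRp, hRcard⟩ := hsB ⊥ (Cz ⊤ (X.inc a₀)) (IsPGroup.of_bot) bot_le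
    obtain ⟨l, _, hl⟩ := hSUP p M hS E ⊤ b hbt (X.inc a₀) (Subgroup.mem_top _) ha1 y (Subgroup.mem_top _)
      (by rw [cc_cls_top]; exact hy) R hRp hRle
    have hmap : R.map (MulAut.conj l⁻¹).toMonoidHom ≤ Cz ⊤ y := by
      rintro _ ⟨r, hr, rfl⟩
      have h1 := hl r hr
      have h2 : (MulAut.conj l⁻¹).toMonoidHom r = l⁻¹ * r * l := by
        simp
      rw [h2]
      exact h1
    have hcardR : Nat.card (R.map (MulAut.conj l⁻¹).toMonoidHom) = Nat.card R :=
      (Nat.card_congr (Subgroup.equivMapOfInjective R (MulAut.conj l⁻¹).toMonoidHom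
        (MulAut.conj l⁻¹).injective).toEquiv).symm
    have h3 := (hsA (R.map (MulAut.conj l⁻¹).toMonoidHom) (Cz ⊤ y) (hRp.map _) hmap).1
    rw [hcardR, hRcard, X2_Cz, X2_Cz] at h3
    rw [hcardD]
    exact hDa.trans h3

end Pool.Agent.FI4
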